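import Pool.Agent.Helper54.S4.Stmts

set_option autoImplicit false

namespace Pool.Agent.Helper54.S4

open Finset Pool.Agent.Helper54.SP

theorem cov4_lab (t : Bool) (a : ℕ) (ha : a < 6) :
    ∃ T ∈ TT t, a = T.1 ∨ a = T.2.1 ∨ a = T.2.2 := by
  have h : ∀ t : Bool, ∀ a < 6, ∃ T ∈ TT t, a = T.1 ∨ a = T.2.1 ∨ a = T.2.2 := by decide
  exact h t a ha

theorem st_COV4 (hPT : ST_PT4) : ST_COV4 := by
  intro Γ nw hF i hi
  have key : ∀ g : List ℕ, (∃ f ∈ fac4 Γ nw, f.Perm g) → i ∈ g → ∃ f ∈ fac4 Γ nw, i ∈ f := by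
    rintro g ⟨f, hf, hp⟩ hg
    exact ⟨f, hf, hp.mem_iff.2 hg⟩
  obtain ⟨-, h2, h3, -⟩ := hPT
  rcases Nat.lt_or_ge i 3 with h | h
  · rcases (show i = 0 ∨ i = 1 ∨ i = 2 by omega) with rfl | rfl | rfl
    · exact key _ hF.h01 (by simp)
    · exact key _ hF.h01 (by simp)
    · exact key _ hF.h02 (by simp)
  · rcases Nat.lt_or_ge i (N4 Γ) with hN | hN
    · obtain ⟨h4, h5, -⟩ := h2 i h
      have hj := (h3 Γ i h).1 hN
      obtain ⟨T, hT, hTa⟩ := cov4_lab (tj (gr i - 1)) (la i) h5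
      refine key _ (hF.tf (gr i - 1) hj T hT) ?_
      simp only [List.mem_cons]
      rcases hTa with e | e | e
      · exact Or.inl (by rw [← e]; exact h4)
      · exact Or.inr (Or.inl (by rw [← e]; exact h4))
      · exact Or.inr (Or.inr (Or.inl (by rw [← e]; exact h4)))
    · rcases (show i = N4 Γ ∨ i = N4 Γ + 1 by omega) with h | h
      · exact key _ hF.h01 (by rw [h]; simp)
      · exact key _ hF.h01 (by rw [h]; simp)

end Pool.Agent.Helper54.S4
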