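import Pool.Agent.Helper54.S4.Stmts
import Pool.Agent.Helper61.SP.EC

set_option autoImplicit false

namespace Pool.Agent.Helper54.S4

open Finset Pool.Agent.Helper54.SP Pool.Agent.Helper54.Poly

section ec4

variable {α : Type} [TEnc α]

theorem ec4_min {f g : α → ℕ} (hf : PT f) (hg : PT g) : PT (fun a => min (f a) (g a)) := by
  refine (PT.ite (PT.leN hf hg) hf hg).congr fun a => ?_
  by_cases h : f a ≤ g a
  · simp [h]
  · simp [h, min_eq_right (le_of_lt (not_le.1 h))]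

theorem ec4_max {f g : α → ℕ} (hf : PT f) (hg : PT g) : PT (fun a => max (f a) (g a)) := by
  refine (PT.ite (PT.leN hf hg) hg hf).congr fun a => ?_
  by_cases h : f a ≤ g a
  · simp [h]
  · simp [h, max_eq_left (le_of_lt (not_le.1 h))]

theorem ec4_lt {f g : α → ℕ} (hf : PT f) (hg : PT g) : PT (fun a => decide (f a < g a)) :=
  (PT.leN (PT.succ hf) hg).congr fun _ => rfl

theorem ec4_inv {f g h k : α → ℕ} (hf : PT f) (hg : PT g) (hh : PT h) (hk : PT k) :
    PT (fun a => inv4 (f a) (g a) (h a) (k a)) :=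
  ec_xor (ec4_lt hg hf) (ec_xor (ec4_lt hh hf) (ec_xor (ec4_lt hk hf)
    (ec_xor (ec4_lt hh hg) (ec_xor (ec4_lt hk hg) (ec4_lt hk hh)))))

end ec4

theorem st_EC4 (hEK : ST_EK4) (hES : ST_ES4) : ST_EC4 := by
  intro α _ Γ nw l hΓ hn hl
  have hκ : PT (fun z : α × ℕ => rb (Γ z.1) (nw z.1) z.2) :=
    (hEK (fun z : α × ℕ => Γ z.1) (fun z => nw z.1) (fun z => z.2)
      (hΓ.comp PT.id.fst) (hn.comp PT.id.fst) PT.id.snd).2.2.2.2.1
  have ha : PT (fun a => amax (rb (Γ a) (nw a)) (l a)) := ec_amax hκ hl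
  have hp : PT (fun a => decide ((amax (rb (Γ a) (nw a)) (l a) + ((l a).length - 1)) % 2 = 1)) :=
    ec_par (PT.add ha (PT.sub (PT.length hl) (PT.const 1)))
  have he := ec_erase ha hl
  have g : ∀ i : ℕ, PT (fun a => ((l a).eraseIdx (amax (rb (Γ a) (nw a)) (l a))).getD i 0) :=
    fun i => PT.getD (PT.const i) he (PT.const 0)
  have h0 := g 0
  have h1 := g 1
  have h2 := g 2
  have h3 := g 3
  have hr := hES Γ nw _ _ _ _ hΓ hn (ec4_min (ec4_min h0 h1) (ec4_min h2 h3))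
    (ec4_min (ec4_max (ec4_min h0 h1) (ec4_min h2 h3)) (ec4_min (ec4_max h0 h1) (ec4_max h2 h3)))
    (ec4_max (ec4_max (ec4_min h0 h1) (ec4_min h2 h3)) (ec4_min (ec4_max h0 h1) (ec4_max h2 h3)))
    (ec4_max (ec4_max h0 h1) (ec4_max h2 h3))
  exact ec_xor hp (ec_xor (ec4_inv h0 h1 h2 h3) hr)

end Pool.Agent.Helper54.S4
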